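import Pool.Agent.H97.PRP.Targets
import Pool.Agent.H10.PRK.GCX
import Pool.Agent.H65.HD.SC
import Pool.Agent.H17.HD.HB

/-!
# MP_e37c09_lc: counterexamples do not exist
-/

open Ordinal Cardinal Order Set
open scoped ZFSet

universe u

namespace Pool.Agent.H42.PRP

open _root_.HD HD.PRK HD.PRP

/-- the points of a small set are in the club set -/
theorem sua_sms (D K : Cardinal.{u}) (hD0 : ℵ₀ < D) (hDr : D.IsRegular)
    (C : Ordinal.{u} → Set Ordinal.{u}) (x : ZFSet.{u})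
    (hx : Sml D.ord K.ord {b | ∀ μ < D.ord, b ∈ C μ} x) :
    ∃ μ < D.ord, ω ≤ μ ∧ SmS μ K.ord (C μ) x := by
  classical
  obtain ⟨τ, hτ, g, hg⟩ := hx.few
  let c : τ.ToType → Ordinal.{u} := fun t =>
    if (g (Ordinal.ToType.mk.symm t).1).cof.ord < D.ord then
      (g (Ordinal.ToType.mk.symm t).1).cof.ord else 0
  have hD0' : (0 : Ordinal.{u}) < D.ord := by
    have : (0 : Cardinal.{u}) < D := lt_of_lt_of_le Cardinal.aleph0_pos hD0.le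
    simpa using Cardinal.ord_lt_ord.2 this
  have hc : ∀ t, c t < D.ord := by
    intro t
    simp only [c]
    split_ifs with h
    · exact h
    · exact hD0'
  have hsup : ⨆ t, c t < D.ord := by
    refine Ordinal.iSup_lt_of_lt_cof ?_ hc
    rw [Cardinal.mk_toType, hDr.cof_ord]
    exact Cardinal.lt_ord.1 hτ
  have hμD : max ω (max τ (⨆ t, c t)) < D.ord := by
    refine max_lt ?_ (max_lt hτ hsup)
    rw [← Cardinal.ord_aleph0]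
    exact Cardinal.ord_lt_ord.2 hD0
  refine ⟨max ω (max τ (⨆ t, c t)), hμD, le_max_left _ _, hx.ne, fun z hz => ?_, g,
    fun a ha => ?_⟩
  · obtain ⟨a, ha, haC, hacof, rfl⟩ := hx.mem z hz
    refine ⟨a, ha, haC _ hμD, ?_, rfl⟩
    obtain ⟨i, hi, hgi⟩ := hg a hz
    have hle : a.cof.ord ≤ ⨆ t, c t := by
      have h4 : c (Ordinal.ToType.mk ⟨i, hi⟩) = a.cof.ord := by
        simp only [c, OrderIso.symm_apply_apply, hgi]
        rw [if_pos hacof]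
      rw [← h4]
      exact le_ciSup Ordinal.bddAbove_of_small _
    exact hle.trans ((le_max_right _ _).trans (le_max_right _ _))
  · obtain ⟨i, hi, hgi⟩ := hg a ha
    exact ⟨i, lt_of_lt_of_le hi ((le_max_left _ _).trans (le_max_right _ _)), hgi⟩

/-- SUA. Counterexamples do not exist. -/
theorem pf_SUA (h0 : HD.PRK.T_CI.{u}) (h1 : T_LC.{u}) (h2 : T_PF.{u}) (h3 : T_DDO.{u})
    (h4 : T_DDT.{u}) (h5 : T_DDC.{u}) (h6 : T_ENU.{u}) (h7 : T_CLU.{u}) : T_SUA.{u} := by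
  classical
  intro δ hδ hA K hK hδK t ht htinj htlt
  obtain ⟨η, -, θ, j, hj⟩ := HD.All.xa δ hδ 0
  obtain ⟨D, rfl, hDr, hDs, hD0⟩ := HD.All.xb δ η θ j hj
  have hDK : D < K := Cardinal.ord_lt_ord.1 hδK
  have hK0 : ℵ₀ < K := hD0.trans hDK
  have hcof : ℵ₀ < K.ord.cof := by
    rw [hK.cof_ord]
    exact hK0
  obtain ⟨δ₀, hδ₀, -, hV⟩ := (HD.All.m14 D.ord hδ).resolve_left hA 0
    (Cardinal.isSuccLimit_ord hD0.le).bot_lt
  obtain ⟨C1, e, hC1, he, -, hve1⟩ := (hV K hK (hδ₀.trans hδK)).1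
  obtain ⟨C2, hC2, hC2'⟩ := Pool.Agent.H10.PRK.gcx_cl hK hK0 t htlt
  obtain ⟨G, hG, hGb⟩ := h1 (BadF t K.ord) (h2 t ht K.ord) K.ord
  have hex : ∀ μ : Ordinal.{u}, ∃ C, Clb K.ord C ∧ (μ < D.ord → ω ≤ μ →
      (∀ x, SmS μ K.ord C x → ∀ a : Ordinal.{u}, a.toZFSet ∈ x →
        {b : Ordinal.{u} | b.toZFSet ∈ x ∧ b < a}.Finite →
          ZFSet.pair (x ∩ (succ a).toZFSet) (os a (sec G x)) ∈ DD μ K.ord G) ∧
      (∀ β ∈ C, β < K.ord → ∃ G', HOD G' ∧ Fun G' ∧ ∀ ξ < β, ∀ s : ZFSet.{u},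
        s ⊆ β.toZFSet → {a : Ordinal.{u} | a.toZFSet ∈ s}.Finite → ∀ W,
          RR D.ord K.ord t (DD μ K.ord G) s ξ W →
            ∃ η < β, ZFSet.pair η.toZFSet (W ∩ β.toZFSet) ∈ G') ∧
      (∀ a ∈ C, a < K.ord → a.cof.ord < D.ord → ∀ z < a, ∀ ξ < a, ∀ s : ZFSet.{u},
        s ⊆ a.toZFSet → {b : Ordinal.{u} | b.toZFSet ∈ s}.Finite →
          Tt t (DD μ K.ord G) s (e z) ξ a → RR D.ord K.ord t (DD μ K.ord G) s ξ (e z))) := by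
    intro μ
    by_cases hμ : μ < D.ord ∧ ω ≤ μ
    · obtain ⟨A1, hA1, hA1'⟩ := h5 D.ord hδ hA K hK hδK μ hμ.1 hμ.2 G hG
      obtain ⟨A2, hA2, hA2'⟩ := h6 D.ord hδ hA K hK hδK t (DD μ K.ord G) ht htinj htlt
        (h3 μ K.ord G hG) (h4 D.ord hδ hA K hK hδK μ hμ.1 hμ.2 G hG)
      obtain ⟨A3, hA3, hA3'⟩ := h7 D K hD0 hK hDK t (DD μ K.ord G) e he
      refine ⟨A1 ∩ (A2 ∩ A3), Pool.Agent.H65.HD.clb_inter hcof hA1
        (Pool.Agent.H65.HD.clb_inter hcof hA2 hA3), fun _ _ => ⟨fun x hx => ?_, fun β hβ => ?_,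
          fun a ha => hA3' a ha.2.2⟩⟩
      · refine hA1' x ⟨hx.ne, fun z hz => ?_, hx.few⟩
        obtain ⟨a, g1, g2, g3, g4⟩ := hx.mem z hz
        exact ⟨a, g1, g2.1, g3, g4⟩
      · exact hA2' β hβ.2.1
    · exact ⟨univ, Pool.Agent.H17.HD.HB.clb_univ hK0.le, fun a b => absurd ⟨a, b⟩ hμ⟩
  choose C hC hCx using hex
  refine ⟨{b | ∀ μ < D.ord, b ∈ C μ} ∩ (C1 ∩ C2), Pool.Agent.H65.HD.clb_inter hcof
    (h0 K hK hK0 D.ord hδK C fun i _ => hC i) (Pool.Agent.H65.HD.clb_inter hcof hC1 hC2),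
    fun β hβ _ => hC2' β hβ.2.2, ?_⟩
  intro x hx hfin X hX hXp hbadX
  have hxK : x ⊆ K.ord.toZFSet := by
    intro z hz
    obtain ⟨a, ha, -, -, rfl⟩ := hx.mem z hz
    exact toZFSet_mem_toZFSet_iff.2 ha
  obtain ⟨-, β, hβK, hxβ, hunb, hH, hno⟩ := hGb x hxK X hX hXp hbadX
  apply hno
  obtain ⟨μ, hμD, hωμ, hsm⟩ := sua_sms D K hD0 hDr C x ⟨hx.ne, fun z hz => by
    obtain ⟨a, g1, g2, g3, g4⟩ := hx.mem z hz
    exact ⟨a, g1, g2.1, g3, g4⟩, hx.few⟩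
  obtain ⟨hc1, hc2, hc3⟩ := hCx μ hμD hωμ
  have hpt : ∀ a : Ordinal.{u}, a.toZFSet ∈ x → a < β ∧ a < K.ord ∧ a ∈ C μ ∧ a ∈ C1 ∧ a ∈ C2 ∧
      a.cof.ord < D.ord := by
    intro a ha
    obtain ⟨a', g1, g2, g3, g4⟩ := hx.mem _ ha
    have g5 := toZFSet_injective g4
    subst g5
    exact ⟨toZFSet_mem_toZFSet_iff.1 (hxβ ha), g1, g2.1 μ hμD, g2.2.1, g2.2.2, g3⟩
  have hβ0 : 0 < β := by
    obtain ⟨z, hz⟩ := hx.ne
    obtain ⟨a, -, -, -, rfl⟩ := hx.mem z hz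
    exact lt_of_le_of_lt bot_le (hpt a hz).1
  have hβC : β ∈ C μ := (hC μ).cls β hβK hβ0 fun y hy => by
    obtain ⟨a, hya, ha⟩ := hunb y hy
    exact ⟨a, (hpt a ha).1, hya, (hpt a ha).2.2.1⟩
  have hβC1 : β ∈ C1 := hC1.cls β hβK hβ0 fun y hy => by
    obtain ⟨a, hya, ha⟩ := hunb y hy
    exact ⟨a, (hpt a ha).1, hya, (hpt a ha).2.2.2.1⟩
  obtain ⟨G', hG', hFun, hE⟩ := hc2 β hβC hβK
  refine ⟨G', hG', hFun, fun ξ hξ => ?_⟩
  have hws : sx t β (os K.ord (sec G x)) ξ ⊆ β.toZFSet := by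
    intro z hz
    obtain ⟨m, hm, -, rfl⟩ := mem_os.1 hz
    exact toZFSet_mem_toZFSet_iff.2 hm
  obtain ⟨z, hzβ, hz⟩ := (hve1 β hβC1 hβK).1 _ (hH ξ hξ) hws
  obtain ⟨a, hza, ha⟩ := hunb (max z ξ) (max_lt hzβ hξ)
  obtain ⟨haβ, haK, haC, -, haC2, hacof⟩ := hpt a ha
  have hza' : z < a := lt_of_le_of_lt (le_max_left _ _) hza
  have hξa : ξ < a := lt_of_le_of_lt (le_max_right _ _) hza
  have hss : x ∩ a.toZFSet ⊆ a.toZFSet := fun y hy => (ZFSet.mem_inter.1 hy).2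
  have hsf : {b : Ordinal.{u} | b.toZFSet ∈ x ∩ a.toZFSet}.Finite := by
    refine (hfin a ha).subset fun b hb => ?_
    have hb1 : b.toZFSet ∈ x ∩ a.toZFSet := hb
    have hb2 := ZFSet.mem_inter.1 hb1
    exact ⟨hb2.1, toZFSet_mem_toZFSet_iff.1 hb2.2⟩
  have hins : insert a.toZFSet (x ∩ a.toZFSet) = x ∩ (succ a).toZFSet := by
    ext y
    rw [ZFSet.mem_insert_iff, ZFSet.mem_inter, ZFSet.mem_inter]
    constructor
    · rintro (rfl | ⟨g1, g2⟩)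
      · exact ⟨ha, toZFSet_mem_toZFSet_iff.2 (lt_succ a)⟩
      · obtain ⟨b, hb, rfl⟩ := mem_toZFSet_iff.1 g2
        exact ⟨g1, toZFSet_mem_toZFSet_iff.2 (hb.trans (lt_succ a))⟩
    · rintro ⟨g1, g2⟩
      obtain ⟨b, hb, rfl⟩ := mem_toZFSet_iff.1 g2
      rcases (Order.lt_succ_iff.1 hb).lt_or_eq with h | h
      · exact Or.inr ⟨g1, toZFSet_mem_toZFSet_iff.2 h⟩
      · rw [h]
        exact Or.inl rfl
  have hTt : Tt t (DD μ K.ord G) (x ∩ a.toZFSet) (e z) ξ a := by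
    refine ⟨os a (sec G x), ?_, fun m hm => ?_⟩
    · rw [hins]
      exact hc1 x hsm a ha (hfin a ha)
    · have hta : t ξ m < a := (hC2' a haC2).2 ξ hξa m hm
      have hmβ : m < β := hm.trans haβ
      have g1 : m.toZFSet ∈ e z ↔ m.toZFSet ∈ sx t β (os K.ord (sec G x)) ξ := by
        rw [hz, ZFSet.mem_inter]
        exact ⟨fun h => ⟨h, toZFSet_mem_toZFSet_iff.2 hmβ⟩, fun h => h.1⟩
      rw [g1]
      unfold sx
      rw [ord_mem_os, ord_mem_os]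
      constructor
      · rintro ⟨-, h⟩
        exact ⟨hta, (ord_mem_os.1 h).2⟩
      · rintro ⟨-, h⟩
        exact ⟨hmβ, ord_mem_os.2 ⟨hta.trans haK, h⟩⟩
  have hRR := hc3 a haC haK hacof z hza' ξ hξa _ hss hsf hTt
  obtain ⟨ε, hε, hε'⟩ := hE ξ hξ _ (fun y hy => by
    obtain ⟨b, hb, rfl⟩ := mem_toZFSet_iff.1 (hss hy)
    exact toZFSet_mem_toZFSet_iff.2 (hb.trans haβ)) hsf (e z) hRR
  refine ⟨ε, hε, ?_⟩
  rw [hz]
  exact hε'

end Pool.Agent.H42.PRP
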